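import Pool.Agent.Lib_helper40.MC.VM
import Pool.Agent.Lib_helper68.MC.ST
import Pool.Agent.Lib_helper65.MC.EX
import Pool.Agent.Lib_helper89.MC.SL
import Pool.Agent.Lib_helper38.MC.GM
import Pool.Agent.Lib_helper81.MC.RR
import Pool.Agent.Lib_helper81.MC.RD
import Pool.Agent.Lib_helper68.MC.DefsD

/-! Project MC (MP_b08f5f_an), extension 2, block ID: the equilibrium density of energy `e` exists
for every `e > e0`.  The lemmas on the low side (`ID_low_...`) are helper49's. -/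

set_option autoImplicit false

namespace Pool.Agent.Lib_helper68.MC

open MeasureTheory Filter Topology Set
open scoped ComplexConjugate ENNReal NNReal
open Pool.Agent.Lib_helper25.PV (Conf vel Motion centre inertia NC VFlow)
open Pool.Agent.Lib_helper12.HE (ham rad nrm Gam sig shell turn one LimAvg)

noncomputable section

/-! ### equality almost everywhere -/

theorem ID_En_congr {ρ σ : ℂ → ℝ} (h : ρ =ᵐ[volume] σ) : En ρ ρ = En σ σ := by
  unfold En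
  congr 1
  refine integral_congr_ae ?_
  have h1 : ∀ᵐ p : ℂ × ℂ ∂(volume.prod volume), ρ p.1 = σ p.1 :=
    Measure.quasiMeasurePreserving_fst.ae h
  have h2 : ∀ᵐ p : ℂ × ℂ ∂(volume.prod volume), ρ p.2 = σ p.2 :=
    Measure.quasiMeasurePreserving_snd.ae h
  filter_upwards [h1, h2] with p e1 e2
  rw [e1, e2]

theorem ID_Sent_congr {ρ σ : ℂ → ℝ} (h : ρ =ᵐ[volume] σ) : Sent ρ = Sent σ := by
  unfold Sent
  congr 1
  refine integral_congr_ae ?_
  filter_upwards [h] with x hx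
  rw [hx]

theorem ID_mo_congr {ρ σ : ℂ → ℝ} (h : ρ =ᵐ[volume] σ) : mo ρ = mo σ := by
  unfold mo
  refine integral_congr_ae ?_
  filter_upwards [h] with x hx
  rw [hx]

theorem ID_mo_nonneg {ρ : ℂ → ℝ} (h : Dens ρ) : 0 ≤ mo ρ :=
  integral_nonneg fun x => mul_nonneg (by positivity) (h.nonneg x)

/-- small perturbations `mix t ρ ρ'` change the energy little -/
theorem ID_small {ρ ρ' : ℂ → ℝ} (h : Dens ρ) (h' : Dens ρ') {κ : ℝ} (hκ : 0 < κ) :
    ∃ t > 0, t < 1 ∧ |En (mix t ρ ρ') (mix t ρ ρ') - En ρ ρ| < κ := by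
  have hc : Continuous fun t : ℝ => (1 - t) ^ 2 * En ρ ρ + 2 * t * (1 - t) * En ρ ρ' +
      t ^ 2 * En ρ' ρ' := by fun_prop
  have h0 : Tendsto (fun t : ℝ => (1 - t) ^ 2 * En ρ ρ + 2 * t * (1 - t) * En ρ ρ' +
      t ^ 2 * En ρ' ρ') (𝓝 0) (𝓝 (En ρ ρ)) := by
    have := hc.tendsto 0
    simpa using this
  have h1 := (Metric.tendsto_nhds.1 h0) κ hκ
  obtain ⟨d, hd, hd'⟩ := Metric.eventually_nhds_iff.1 h1
  have hpos : 0 < min (d / 2) (1 / 2) := lt_min (by positivity) (by norm_num)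
  refine ⟨min (d / 2) (1 / 2), hpos, ?_, ?_⟩
  · have := min_le_right (d / 2) (1 / 2)
    linarith
  · rw [EN_mix h h']
    have := hd' (y := min (d / 2) (1 / 2)) (by
      rw [Real.dist_eq, sub_zero, abs_of_pos hpos]
      have := min_le_left (d / 2) (1 / 2)
      linarith)
    rwa [Real.dist_eq] at this

/-- mixing with the Gaussian raises the entropy strictly and changes the energy little -/
theorem ID_gau {ρ : ℂ → ℝ} (h : Dens ρ) (hm : mo ρ ≤ 1) (hne : En ρ ρ ≠ En gau gau) {κ : ℝ}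
    (hκ : 0 < κ) : ∃ ρ' : ℂ → ℝ, Dens ρ' ∧ mo ρ' ≤ 1 ∧ |En ρ' ρ' - En ρ ρ| < κ ∧
      Sent ρ < Sent ρ' := by
  obtain ⟨gd, gm, -, -⟩ := GA_dens
  have hng : ¬ ρ =ᵐ[volume] gau := fun e => hne (ID_En_congr e)
  have hS := GA_max h hm hng
  obtain ⟨t, ht, ht1, hE⟩ := ID_small h gd hκ
  have k3 := MX_sent h gd ht.le ht1.le
  refine ⟨mix t ρ gau, MX_dens h gd ht.le ht1.le, ?_, hE, ?_⟩
  · rw [MX_mo h gd, gm]
    nlinarith
  · nlinarith

/-- from invariance almost everywhere to an honest equilibrium -/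
theorem ID_make {e : ℝ} {ρ : ℂ → ℝ} (h : Dens ρ) (h1 : mo ρ = 1) (h2 : En ρ ρ = e)
    (hr : ∀ α : ℂ, ‖α‖ = 1 → (fun x => ρ (α * x)) =ᵐ[volume] ρ)
    (hb : ∀ ρ' : ℂ → ℝ, Dens ρ' → mo ρ' ≤ 1 → En ρ' ρ' ≤ e → ¬ ρ' =ᵐ[volume] ρ →
      Sent ρ' - 8 * Real.pi * (e - En ρ' ρ') < Sent ρ) : ∃ ρ : ℂ → ℝ, Eqm e ρ := by
  obtain ⟨g, hg, hgρ⟩ := RR_desc h hr
  obtain ⟨k1, k2, -, -⟩ := RR_lift hg
  refine ⟨lif g, ⟨k1, ?_, k2, ?_, ?_, ?_⟩⟩
  · rw [← ID_mo_congr hgρ, h1]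
  · rw [← ID_En_congr hgρ, h2]
  · intro α hα x
    unfold lif
    rw [norm_mul, hα, one_mul]
  · intro ρ' m1 m2 m3 m4
    rw [← ID_Sent_congr hgρ]
    exact hb ρ' m1 m2 m3 fun e1 => m4 (e1.trans hgρ)

/-! ### the low side (helper49) -/

/-- `ρ` maximises the entropy among the densities with second moment `≤ 1` and energy `≤ e` -/
structure IsLow (e : ℝ) (ρ : ℂ → ℝ) : Prop where
  dens : Dens ρ
  mo_le : mo ρ ≤ 1
  en_le : En ρ ρ ≤ e
  top : ∀ ρ', Dens ρ' → mo ρ' ≤ 1 → En ρ' ρ' ≤ e → Sent ρ' ≤ Sent ρ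

theorem ID_low_unique {e : ℝ} {ρ ρ' : ℂ → ℝ} (h : IsLow e ρ) (h' : Dens ρ') (hm : mo ρ' ≤ 1)
    (hE : En ρ' ρ' ≤ e) (hne : ¬ ρ' =ᵐ[volume] ρ) : Sent ρ' < Sent ρ := by
  by_contra hcon
  push Not at hcon
  have hne' : ¬ ρ =ᵐ[volume] ρ' := fun e => hne e.symm
  have e1 := MX_strict h.dens h' (t := 1 / 2) (by norm_num) (by norm_num) hne'
  have e2 := h.top (mix (1 / 2) ρ ρ') (MX_dens h.dens h' (by norm_num) (by norm_num)) (by
    rw [MX_mo h.dens h']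
    linarith [h.mo_le]) (by
    rw [EN_mix h.dens h']
    have := CX_mid h.dens h'
    linarith [h.en_le])
  linarith

theorem ID_low_mo {e : ℝ} {ρ : ℂ → ℝ} (h : IsLow e ρ) : mo ρ = 1 := by
  obtain ⟨hd, h1, h2, h3⟩ := h
  by_contra hne
  have hlt : mo ρ < 1 := lt_of_le_of_ne h1 hne
  have h0 := ID_mo_nonneg hd
  set s : ℝ := Real.sqrt (2 / (1 + mo ρ)) with hs
  have hq : 1 < 2 / (1 + mo ρ) := by
    rw [lt_div_iff₀ (by linarith)]
    linarith
  have hs2 : s ^ 2 = 2 / (1 + mo ρ) := Real.sq_sqrt (by positivity)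
  have hs1 : 1 < s := by
    rw [hs]
    exact Real.lt_sqrt_of_sq_lt (by simpa using hq)
  obtain ⟨g1, g2, g3, -, g5⟩ := GE_dil hd (s := s) (by linarith)
  have hlog : 0 < Real.log s := Real.log_pos hs1
  have := h3 (dil s ρ) g1 (by
    rw [g3, hs2, div_mul_eq_mul_div, div_le_one (by linarith)]
    linarith) (by
    rw [g5]
    have : 0 < 1 / (4 * Real.pi) * Real.log s := by positivity
    linarith)
  rw [g2] at this
  linarith

theorem ID_low_rot {e : ℝ} {ρ : ℂ → ℝ} (h : IsLow e ρ) (a : ℂ) (ha : ‖a‖ = 1) :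
    (fun x => ρ (a * x)) =ᵐ[volume] ρ := by
  by_contra hne
  obtain ⟨g1, g2, g3, -, g5⟩ := GE_rot h.dens a ha
  have := ID_low_unique h g1 (by rw [g3]; exact h.mo_le) (by rw [g5]; exact h.en_le) hne
  rw [g2] at this
  exact lt_irrefl _ this

theorem ID_low_en {e : ℝ} (he : e ≤ En gau gau) {ρ : ℂ → ℝ} (h : IsLow e ρ) : En ρ ρ = e := by
  by_contra hne
  have hlt : En ρ ρ < e := lt_of_le_of_ne h.en_le hne
  obtain ⟨ρ', k1, k2, k3, k4⟩ := ID_gau h.dens h.mo_le (by linarith : En ρ ρ < En gau gau).ne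
    (κ := e - En ρ ρ) (by linarith)
  have := h.top ρ' k1 k2 (by
    have := (abs_lt.1 k3).2
    linarith)
  linarith

theorem ID_low {e : ℝ} (he : e0 < e) (hg : e ≤ En gau gau) : ∃ ρ : ℂ → ℝ, Eqm e ρ := by
  obtain ⟨δ, d1, d2, -, d4⟩ := DS_disc
  obtain ⟨ρ, m1, m2, m3, m4⟩ := EX_low (e := e) ⟨δ, d1, d2.le, by rw [d4]; exact he.le⟩
  have h : IsLow e ρ := ⟨m1, m2, m3, m4⟩
  refine ID_make m1 (ID_low_mo h) (ID_low_en hg h) (ID_low_rot h) ?_
  intro ρ' n1 n2 n3 n4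
  have k1 := ID_low_unique h n1 n2 n3 n4
  have k2 : 0 ≤ 8 * Real.pi * (e - En ρ' ρ') :=
    mul_nonneg (by positivity) (by linarith)
  linarith

/-! ### the high side -/

/-- `ρ` maximises the entropy among the densities with second moment `≤ 1` and energy `≥ e` -/
structure IsHigh (e : ℝ) (ρ : ℂ → ℝ) : Prop where
  dens : Dens ρ
  mo_le : mo ρ ≤ 1
  le_en : e ≤ En ρ ρ
  top : ∀ ρ', Dens ρ' → mo ρ' ≤ 1 → e ≤ En ρ' ρ' → Sent ρ' ≤ Sent ρ

theorem ID_high_mo {e : ℝ} {ρ : ℂ → ℝ} (h : IsHigh e ρ) : mo ρ = 1 := by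
  by_contra hne
  obtain ⟨ρ', k1, k2, k3, k4⟩ := SL_main h.dens (lt_of_le_of_ne h.mo_le hne)
  have := h.top ρ' k1 k2 (h.le_en.trans k3)
  linarith

theorem ID_high_mean {e : ℝ} {ρ : ℂ → ℝ} (h : IsHigh e ρ) : mean ρ = 0 := by
  obtain ⟨g1, g2, g3, -, g5⟩ := GE_shift h.dens
  have hs : IsHigh e (fun x => ρ (x + mean ρ)) := by
    refine ⟨g1, ?_, ?_, ?_⟩
    · rw [g3]
      have := sq_nonneg ‖mean ρ‖
      linarith [h.mo_le]
    · rw [g5]
      exact h.le_en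
    · intro ρ' k1 k2 k3
      rw [g2]
      exact h.top ρ' k1 k2 k3
  have e1 := ID_high_mo hs
  have e2 := ID_high_mo h
  rw [g3, e2] at e1
  have e3 : ‖mean ρ‖ ^ 2 = 0 := by linarith
  have e4 : ‖mean ρ‖ = 0 := by
    simpa using e3
  exact norm_eq_zero.1 e4

theorem ID_high_en {e : ℝ} (he : En gau gau ≤ e) {ρ : ℂ → ℝ} (h : IsHigh e ρ) : En ρ ρ = e := by
  by_contra hne
  have hlt : e < En ρ ρ := lt_of_le_of_ne h.le_en (Ne.symm hne)
  obtain ⟨ρ', k1, k2, k3, k4⟩ := ID_gau h.dens h.mo_le (by linarith : En gau gau < En ρ ρ).ne'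
    (κ := En ρ ρ - e) (by linarith)
  have := h.top ρ' k1 k2 (by
    have := (abs_lt.1 k3).1
    linarith)
  linarith

theorem ID_high_rot {e : ℝ} (he0 : e0 < e) (he : En gau gau ≤ e) {ρ : ℂ → ℝ} (h : IsHigh e ρ)
    (α : ℂ) (hα : ‖α‖ = 1) : (fun x => ρ (α * x)) =ᵐ[volume] ρ := by
  by_contra hne
  have hE := ID_high_en he h
  obtain ⟨ρ', k1, k2, -, k4, -, k6⟩ := VM_main (a := e) (b := e + 1) (by linarith)
    (by linarith) h.dens h.mo_le (ID_high_mean h) (by linarith) ⟨α, hα, hne⟩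
  have h1 : max (e - En ρ ρ) 0 = 0 := by
    rw [hE]
    simp
  rw [h1] at k6
  have := h.top ρ' k1 k2.le k4.le
  linarith

theorem ID_high_unique {e : ℝ} (he0 : e0 < e) (he : En gau gau ≤ e) {ρ ρ' : ℂ → ℝ}
    (h : IsHigh e ρ) (h' : IsHigh e ρ') : ρ' =ᵐ[volume] ρ := by
  by_contra hne
  obtain ⟨ρ₂, k1, k2, k3, k4⟩ := GM_main h'.dens h.dens (ID_high_rot he0 he h')
    (ID_high_rot he0 he h) hne
  have s1 : Sent ρ ≤ Sent ρ' := h'.top ρ h.dens h.mo_le h.le_en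
  have s2 : Sent ρ' ≤ Sent ρ := h.top ρ' h'.dens h'.mo_le h'.le_en
  rw [ID_high_mo h', ID_high_mo h] at k2
  rw [ID_high_en he h', ID_high_en he h] at k3
  obtain ⟨ρ₃, n1, n2, n3, n4⟩ := SL_main k1 (by linarith)
  have := h.top ρ₃ n1 n2 (by linarith)
  linarith

theorem ID_high_ne {e : ℝ} : ∃ ρ, Dens ρ ∧ mo ρ ≤ 1 ∧ e ≤ En ρ ρ := by
  obtain ⟨δ, d1, d2, -, d4⟩ := DS_disc
  set c : ℝ := 4 * Real.pi * max (e - e0) 0 with hc
  have hc0 : 0 ≤ c := mul_nonneg (by positivity) (le_max_right _ _)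
  obtain ⟨g1, -, g3, -, g5⟩ := GE_dil d1 (Real.exp_pos (-c))
  refine ⟨dil (Real.exp (-c)) δ, g1, ?_, ?_⟩
  · rw [g3, d2, mul_one, ← Real.exp_nat_mul]
    rw [Real.exp_le_one_iff]
    push_cast
    linarith
  · rw [g5, d4, Real.log_exp]
    have h1 : 1 / (4 * Real.pi) * -c = -max (e - e0) 0 := by
      rw [hc]
      field_simp
    rw [h1]
    have := le_max_left (e - e0) 0
    linarith

theorem ID_dil_one (ρ : ℂ → ℝ) : dil 1 ρ = ρ := by
  funext x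
  unfold dil
  simp

theorem ID_high {e : ℝ} (he0 : e0 < e) (he : En gau gau ≤ e) : ∃ ρ : ℂ → ℝ, Eqm e ρ := by
  obtain ⟨ρ, m1, m2, m3, m4⟩ := EX_high (e := e) ID_high_ne
  have h : IsHigh e ρ := ⟨m1, m2, m3, m4⟩
  refine ID_make m1 (ID_high_mo h) (ID_high_en he h) (ID_high_rot he0 he h) ?_
  intro ρ' n1 n2 n3 n4
  set c : ℝ := 4 * Real.pi * (e - En ρ' ρ') with hc
  have hc0 : 0 ≤ c := mul_nonneg (by positivity) (by linarith)
  obtain ⟨g1, g2, g3, -, g5⟩ := GE_dil n1 (Real.exp_pos (-c))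
  have hE : En (dil (Real.exp (-c)) ρ') (dil (Real.exp (-c)) ρ') = e := by
    rw [g5, Real.log_exp]
    have h1 : 1 / (4 * Real.pi) * -c = -(e - En ρ' ρ') := by
      rw [hc]
      field_simp
    rw [h1]
    ring
  have hS : Sent (dil (Real.exp (-c)) ρ') = Sent ρ' - 8 * Real.pi * (e - En ρ' ρ') := by
    rw [g2, Real.log_exp, hc]
    ring
  have hs : Real.exp (-c) ^ 2 ≤ 1 := by
    rw [← Real.exp_nat_mul, Real.exp_le_one_iff]
    push_cast
    linarith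
  have hmo' := ID_mo_nonneg n1
  have hM : mo (dil (Real.exp (-c)) ρ') ≤ 1 := by
    rw [g3]
    nlinarith
  have hle := h.top _ g1 hM hE.ge
  rw [hS] at hle
  refine lt_of_le_of_ne hle fun heq => ?_
  -- equality: the dilated density is a maximiser
  have h' : IsHigh e (dil (Real.exp (-c)) ρ') := by
    refine ⟨g1, hM, hE.ge, fun σ s1 s2 s3 => ?_⟩
    rw [hS, heq]
    exact h.top σ s1 s2 s3
  have e1 := ID_high_mo h'
  rw [g3] at e1
  have e2 : Real.exp (-c) ^ 2 = 1 := by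
    have : Real.exp (-c) ^ 2 * mo ρ' ≤ Real.exp (-c) ^ 2 := by
      have := mul_le_mul_of_nonneg_left n2 (sq_nonneg (Real.exp (-c)))
      linarith
    linarith
  have e3 : Real.exp (-c) = 1 := by
    have := Real.exp_pos (-c)
    nlinarith
  rw [e3, ID_dil_one] at h'
  exact n4 (ID_high_unique he0 he h h')

/-- the equilibrium density exists at every energy above the least one -/
theorem ID_main {e : ℝ} (he : e0 < e) : ∃ ρ : ℂ → ℝ, Eqm e ρ := by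
  rcases le_total e (En gau gau) with hg | hg
  · exact ID_low he hg
  · exact ID_high he hg

end

end Pool.Agent.Lib_helper68.MC
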