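import Pool.Agent.Lib_helper68.MC.DefsD

/-! Project MC (MP_b08f5f_an), extension 2, block QU: quantile functions. -/

set_option autoImplicit false

namespace Pool.Agent.Lib_helper68.MC

open MeasureTheory Filter Topology Set ProbabilityTheory
open scoped ComplexConjugate ENNReal NNReal

noncomputable section

/-- the quantile function -/
def QM_V (g : ℝ → ℝ) (s : ℝ) : ℝ :=
  sInf {v : ℝ | s ≤ cdf (volume.withDensity fun v => ENNReal.ofReal (g v)) v}

/-- the quantile function, zero outside of the unit interval -/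
def QM_W (g : ℝ → ℝ) (s : ℝ) : ℝ := (Ioo (0 : ℝ) 1).indicator (QM_V g) s

theorem QM_prob {g : ℝ → ℝ} (h : Den1 g) :
    IsProbabilityMeasure (volume.withDensity fun v => ENNReal.ofReal (g v)) := by
  constructor
  rw [withDensity_apply _ MeasurableSet.univ, Measure.restrict_univ,
    ← ofReal_integral_eq_lintegral_ofReal h.int (ae_of_all _ h.nonneg), h.one, ENNReal.ofReal_one]

theorem QM_zero {g : ℝ → ℝ} (h : Den1 g) :
    cdf (volume.withDensity fun v => ENNReal.ofReal (g v)) 0 = 0 := by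
  have := QM_prob h
  rw [cdf_eq_real, Measure.real, withDensity_apply _ measurableSet_Iic]
  rw [setLIntegral_congr_fun (g := fun _ => 0) measurableSet_Iic fun v hv => ?_]
  · simp
  · rw [h.zero v hv, ENNReal.ofReal_zero]

theorem QM_cont {g : ℝ → ℝ} (h : Den1 g) :
    Continuous (cdf (volume.withDensity fun v => ENNReal.ofReal (g v))) := by
  have := QM_prob h
  set μ := volume.withDensity fun v => ENNReal.ofReal (g v) with hμ
  refine continuous_iff_continuousAt.2 fun x => ?_
  rw [(monotone_cdf μ).continuousAt_iff_leftLim_eq_rightLim, StieltjesFunction.rightLim_eq]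
  have h1 : μ {x} = ENNReal.ofReal (cdf μ x - Function.leftLim (cdf μ) x) := by
    rw [← StieltjesFunction.measure_singleton, measure_cdf]
  rw [hμ, (withDensity_absolutelyContinuous (volume : Measure ℝ)
    fun v => ENNReal.ofReal (g v)) (measure_singleton x), ← hμ] at h1
  have h2 := ENNReal.ofReal_eq_zero.1 h1.symm
  have h3 := (monotone_cdf μ).leftLim_le (le_refl x)
  linarith

theorem QM_le {g : ℝ → ℝ} (h : Den1 g) {s : ℝ} (hs : s ∈ Ioo (0 : ℝ) 1) (v : ℝ) :
    QM_V g s ≤ v ↔ s ≤ cdf (volume.withDensity fun v => ENNReal.ofReal (g v)) v := by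
  set μ := volume.withDensity fun v => ENNReal.ofReal (g v) with hμ
  have hbd : BddBelow {v : ℝ | s ≤ cdf μ v} := by
    refine ⟨0, fun v hv => ?_⟩
    by_contra hcon
    push Not at hcon
    have h1 := monotone_cdf μ hcon.le
    rw [hμ, QM_zero h, ← hμ] at h1
    have h2 : s ≤ cdf μ v := hv
    linarith [hs.1]
  have hne : {v : ℝ | s ≤ cdf μ v}.Nonempty := by
    have := (tendsto_cdf_atTop μ).eventually (lt_mem_nhds hs.2)
    obtain ⟨v, hv⟩ := this.exists
    exact ⟨v, hv.le⟩
  have hcl : IsClosed {v : ℝ | s ≤ cdf μ v} := isClosed_le continuous_const (QM_cont h)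
  constructor
  · intro hv
    have h1 : QM_V g s ∈ {v : ℝ | s ≤ cdf μ v} := hcl.csInf_mem hne hbd
    exact le_trans (show s ≤ cdf μ (QM_V g s) from h1) (monotone_cdf μ hv)
  · intro hv
    exact csInf_le hbd hv

theorem QM_eq {g : ℝ → ℝ} (h : Den1 g) {s : ℝ} (hs : s ∈ Ioo (0 : ℝ) 1) :
    cdf (volume.withDensity fun v => ENNReal.ofReal (g v)) (QM_V g s) = s := by
  set μ := volume.withDensity fun v => ENNReal.ofReal (g v) with hμ
  refine le_antisymm ?_ ((QM_le h hs _).1 le_rfl)
  refine le_of_tendsto' (f := fun n : ℕ => cdf μ (QM_V g s - 1 / ((n : ℝ) + 1)))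
    (x := atTop) ?_ fun n => ?_
  · have h1 : Tendsto (fun n : ℕ => QM_V g s - 1 / ((n : ℝ) + 1)) atTop (𝓝 (QM_V g s - 0)) :=
      tendsto_const_nhds.sub tendsto_one_div_add_atTop_nhds_zero_nat
    rw [sub_zero] at h1
    exact ((QM_cont h).tendsto _).comp h1
  · by_contra hcon
    push Not at hcon
    have h1 := (QM_le h hs _).2 hcon.le
    have h2 : 0 < 1 / ((n : ℝ) + 1) := by positivity
    linarith

theorem QM_pos {g : ℝ → ℝ} (h : Den1 g) {s : ℝ} (hs : s ∈ Ioo (0 : ℝ) 1) : 0 < QM_V g s := by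
  by_contra hcon
  push Not at hcon
  have h1 := (QM_le h hs 0).1 hcon
  rw [QM_zero h] at h1
  linarith [hs.1]

theorem QM_pre {g : ℝ → ℝ} (h : Den1 g) (v : ℝ) :
    QM_W g ⁻¹' Iic v ∩ Ioo 0 1 =
      Iic (cdf (volume.withDensity fun v => ENNReal.ofReal (g v)) v) ∩ Ioo 0 1 := by
  ext s
  constructor
  · rintro ⟨h1, h2⟩
    refine ⟨?_, h2⟩
    have h3 : QM_W g s ≤ v := h1
    rw [QM_W, indicator_of_mem h2] at h3
    exact (QM_le h h2 v).1 h3
  · rintro ⟨h1, h2⟩
    refine ⟨?_, h2⟩
    show QM_W g s ≤ v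
    rw [QM_W, indicator_of_mem h2]
    exact (QM_le h h2 v).2 h1

theorem QM_meas {g : ℝ → ℝ} (h : Den1 g) : Measurable (QM_W g) := by
  refine measurable_of_Iic fun v => ?_
  have h1 : QM_W g ⁻¹' Iic v = (QM_W g ⁻¹' Iic v ∩ Ioo 0 1) ∪
      ((Ioo (0 : ℝ) 1)ᶜ ∩ {_s | (0 : ℝ) ≤ v}) := by
    ext s
    by_cases hs : s ∈ Ioo (0 : ℝ) 1
    · simp [hs]
    · simp only [mem_union, mem_inter_iff, mem_compl_iff, hs, not_false_iff, true_and, and_false,
        false_or, mem_ofPred_eq, mem_preimage, mem_Iic]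
      rw [QM_W, indicator_of_notMem hs]
  rw [h1, QM_pre h]
  exact (measurableSet_Iic.inter measurableSet_Ioo).union
    (measurableSet_Ioo.compl.inter (MeasurableSet.const _))

theorem QM_map {g : ℝ → ℝ} (h : Den1 g) :
    Measure.map (QM_W g) (volume.restrict (Ioo 0 1)) =
      volume.withDensity (fun v => ENNReal.ofReal (g v)) := by
  have := QM_prob h
  set μ := volume.withDensity fun v => ENNReal.ofReal (g v) with hμ
  have : IsFiniteMeasure (Measure.map (QM_W g) (volume.restrict (Ioo 0 1))) := by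
    constructor
    rw [Measure.map_apply (QM_meas h) MeasurableSet.univ]
    simp
  refine Measure.ext_of_Iic _ _ fun v => ?_
  rw [Measure.map_apply (QM_meas h) measurableSet_Iic,
    Measure.restrict_apply ((QM_meas h) measurableSet_Iic), QM_pre h, ← hμ, ← ofReal_cdf]
  have h0 := cdf_nonneg μ v
  have h1 := cdf_le_one μ v
  refine le_antisymm ?_ ?_
  · calc volume (Iic (cdf μ v) ∩ Ioo 0 1) ≤ volume (Icc 0 (cdf μ v)) :=
          measure_mono fun s hs => ⟨hs.2.1.le, hs.1⟩
      _ = ENNReal.ofReal (cdf μ v) := by rw [Real.volume_Icc, sub_zero]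
  · calc ENNReal.ofReal (cdf μ v) = volume (Ioo 0 (cdf μ v)) := by
          rw [Real.volume_Ioo, sub_zero]
      _ ≤ volume (Iic (cdf μ v) ∩ Ioo 0 1) :=
          measure_mono fun s hs => ⟨hs.2.le, hs.1, hs.2.trans_le h1⟩

theorem QM_deriv {g : ℝ → ℝ} (h : Den1 g) {s : ℝ} (hs : s ∈ Ioo (0 : ℝ) 1)
    (hg : 0 < g (QM_V g s))
    (hd : HasDerivAt (cdf (volume.withDensity fun v => ENNReal.ofReal (g v))) (g (QM_V g s))
      (QM_V g s)) : HasDerivAt (QM_W g) (1 / g (QM_V g s)) s := by
  set μ := volume.withDensity fun v => ENNReal.ofReal (g v) with hμ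
  have hW : QM_W g s = QM_V g s := by rw [QM_W, indicator_of_mem hs]
  have hnear : ∀ᶠ y in 𝓝 s, y ∈ Ioo (0 : ℝ) 1 := Ioo_mem_nhds hs.1 hs.2
  -- the distribution function is strictly larger to the right
  have hgt : ∀ ε > 0, s < cdf μ (QM_V g s + ε) := by
    intro ε hε
    have h1 := (hasDerivAt_iff_tendsto_slope.1 hd).eventually (lt_mem_nhds hg)
    have h2 : ∀ᶠ y in 𝓝[>] (QM_V g s), 0 < slope (cdf μ) (QM_V g s) y :=
      h1.filter_mono (nhdsWithin_mono _ fun y hy => ne_of_gt hy)
    have h3 : ∀ᶠ y in 𝓝[>] (QM_V g s), y ∈ Ioo (QM_V g s) (QM_V g s + ε) :=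
      Ioo_mem_nhdsGT (by linarith)
    obtain ⟨y, hy1, hy2⟩ := (h2.and h3).exists
    rw [slope_def_field, QM_eq h hs] at hy1
    have h4 : 0 < cdf μ y - s := by
      by_contra hcon
      push Not at hcon
      have := div_nonpos_of_nonpos_of_nonneg hcon (by linarith [hy2.1] : 0 ≤ y - QM_V g s)
      linarith
    have h5 := monotone_cdf μ hy2.2.le
    linarith
  have hlt : ∀ ε > 0, cdf μ (QM_V g s - ε) < s := by
    intro ε hε
    by_contra hcon
    push Not at hcon
    have := (QM_le h hs _).2 hcon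
    linarith
  have hc : ContinuousAt (QM_W g) s := by
    refine Metric.tendsto_nhds.2 fun ε hε => ?_
    have e1 : ∀ᶠ y in 𝓝 s, y < cdf μ (QM_V g s + ε / 2) := gt_mem_nhds (hgt _ (by positivity))
    have e2 : ∀ᶠ y in 𝓝 s, cdf μ (QM_V g s - ε / 2) < y := lt_mem_nhds (hlt _ (by positivity))
    filter_upwards [hnear, e1, e2] with y hy y1 y2
    rw [hW, QM_W, indicator_of_mem hy, Real.dist_eq, abs_lt]
    constructor
    · by_contra hcon
      push Not at hcon
      have h1 := (QM_le h hy (QM_V g s - ε)).1 (by linarith)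
      have h2 := monotone_cdf μ (show QM_V g s - ε ≤ QM_V g s - ε / 2 by linarith)
      linarith
    · have h1 := (QM_le h hy (QM_V g s + ε / 2)).2 y1.le
      linarith
  rw [one_div]
  refine HasDerivAt.of_local_left_inverse hc (f := cdf μ) ?_ hg.ne' ?_
  · rw [hW]
    exact hd
  · filter_upwards [hnear] with y hy
    rw [QM_W, indicator_of_mem hy]
    exact QM_eq h hy

theorem QU_main {g : ℝ → ℝ} (h : Den1 g) : ∃ V : ℝ → ℝ, StrictMonoOn V (Ioo 0 1) ∧
    (∀ s ∈ Ioo (0 : ℝ) 1, 0 < V s) ∧ Measurable V ∧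
    Measure.map V (volume.restrict (Ioo 0 1)) =
      volume.withDensity (fun v => ENNReal.ofReal (g v)) ∧
    ∀ᵐ s ∂(volume.restrict (Ioo (0 : ℝ) 1)), 0 < g (V s) ∧ HasDerivAt V (1 / g (V s)) s := by
  have := QM_prob h
  refine ⟨QM_W g, ?_, ?_, QM_meas h, QM_map h, ?_⟩
  · intro s hs t ht hst
    rw [QM_W, QM_W, indicator_of_mem hs, indicator_of_mem ht]
    by_contra hcon
    push Not at hcon
    have h1 := monotone_cdf (volume.withDensity fun v => ENNReal.ofReal (g v)) hcon
    rw [QM_eq h hs, QM_eq h ht] at h1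
    linarith
  · intro s hs
    rw [QM_W, indicator_of_mem hs]
    exact QM_pos h hs
  · have h1 : ∀ᵐ v ∂(volume : Measure ℝ),
        HasDerivAt (cdf (volume.withDensity fun v => ENNReal.ofReal (g v))) (g v) v := by
      have e1 := (cdf (volume.withDensity fun v => ENNReal.ofReal (g v))).ae_hasDerivAt
      rw [measure_cdf] at e1
      have e2 := Measure.rnDeriv_withDensity (volume : Measure ℝ)
        (f := fun v => ENNReal.ofReal (g v)) (ENNReal.measurable_ofReal.comp h.meas)
      filter_upwards [e1, e2] with v v1 v2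
      rw [v2, ENNReal.toReal_ofReal (h.nonneg v)] at v1
      exact v1
    have h2 : ∀ᵐ v ∂(volume.withDensity fun v => ENNReal.ofReal (g v)), 0 < g v ∧
        HasDerivAt (cdf (volume.withDensity fun v => ENNReal.ofReal (g v))) (g v) v := by
      refine (ae_withDensity_iff (f := fun v => ENNReal.ofReal (g v))
        (ENNReal.measurable_ofReal.comp h.meas)).2 ?_
      filter_upwards [h1] with v hv hne
      exact ⟨ENNReal.ofReal_pos.1 (pos_iff_ne_zero.2 hne), hv⟩
    rw [← QM_map h] at h2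
    have h3 := ae_of_ae_map (QM_meas h).aemeasurable h2
    filter_upwards [h3, ae_restrict_mem measurableSet_Ioo] with s hs hs'
    rw [QM_map h] at hs
    have hW : QM_W g s = QM_V g s := by rw [QM_W, indicator_of_mem hs']
    rw [hW] at hs ⊢
    exact ⟨hs.1, QM_deriv h hs' hs.1 hs.2⟩

end

end Pool.Agent.Lib_helper68.MC
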